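import Pool.Agent.H92.OD.Targets

/-!
# MP_70ba79_ag, first order differential equations over `k(u)`: EXP
-/

set_option autoImplicit false

namespace Pool.Agent.H51.OD

open MvPolynomial Filter Pool.Agent.H92.OD

section

variable {k : Type} [Field k] [CharZero k] {𝒰 : Ultrafilter ℕ}

/-- the product of the operators `DG - r`, `r` in `Z`, applied to `gm y` -/
lemma exists_ops (y : ℕ → HS k)
    (hd : ∀ g ∈ EE DG (ug 𝒰 k) (gm y), DG g ∈ EE DG (ug 𝒰 k) (gm y))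
    (hy : (gm y : Gm 𝒰 (HS k)) ∈ EE DG (ug 𝒰 k) (gm y)) (Z : Finset ℚ) :
    ∃ f : ℕ → HS k, (gm f : Gm 𝒰 (HS k)) ∈ EE DG (ug 𝒰 k) (gm y) ∧
      ∀ j t, cf (f j) t = (∏ r ∈ Z, ((t - r : ℚ) : k)) * cf (y j) t := by
  classical
  induction Z using Finset.induction_on with
  | empty => exact ⟨y, hy, fun j t => by rw [Finset.prod_empty, one_mul]⟩
  | insert a Z ha ih =>
    obtain ⟨f, hf, hc⟩ := ih
    refine ⟨fun j => DF (f j) - sg 0 (a : k) * f j, ?_, ?_⟩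
    · have h1 : (gm (fun j => DF (f j) - sg 0 (a : k) * f j) : Gm 𝒰 (HS k)) =
          DG (gm f) - algebraMap k (Gm 𝒰 (HS k)) (a : k) * gm f := by
        rw [DG_gm, algebraMap_gm]
        rfl
      rw [h1]
      exact sub_mem (hd _ hf) (mul_mem (IntermediateField.algebraMap_mem _ _) hf)
    · intro j t
      rw [cf_sub, cf_DF, cf_sg_mul, sub_zero, Finset.prod_insert ha, mul_assoc, ← hc j t,
        Rat.cast_sub, sub_mul, Rat.smul_def]

end

theorem pf_EXP (h1 : T_STD) (h2 : T_DSC) : T_EXP := by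
  intro k _ _ _ 𝒰 y s Q hS
  obtain ⟨l, hl, hdsc⟩ := h2 k 𝒰 y s Q hS
  have hlq : (0 : ℚ) < l := by exact_mod_cast hl
  have hy : (gm y : Gm 𝒰 (HS k)) ∈ EE DG (ug 𝒰 k) (gm y) :=
    IntermediateField.subset_adjoin _ _ (by simp)
  have hy0 : (gm y : Gm 𝒰 (HS k)) ≠ 0 := by
    rw [gm_ne_zero_iff]
    refine Eventually.of_forall fun j h0 => hS.ne j ?_
    rw [h0, cf_zero]
  obtain ⟨r0, hr0⟩ := h1 k 𝒰 y s Q hS _ hy hy0
  rw [StO_gm] at hr0
  have key : ∀ N : ℚ, ∀ᶠ j in (𝒰 : Filter ℕ), ∀ r ≤ N, cf (y j) r ≠ 0 → ∃ m : ℤ, r * l = m := by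
    intro N
    classical
    set Z : Finset ℚ := (Finset.Icc ⌈r0 * l⌉ ⌊N * l⌋).image fun m : ℤ => (m : ℚ) / l with hZ
    have hZm : ∀ t : ℚ, t ∈ Z → ∃ m : ℤ, t * l = m := by
      intro t ht
      obtain ⟨m, -, rfl⟩ := Finset.mem_image.1 ht
      exact ⟨m, div_mul_cancel₀ _ hlq.ne'⟩
    have hZi : ∀ (t : ℚ) (m : ℤ), t * l = m → r0 ≤ t → t ≤ N → t ∈ Z := by
      intro t m hm h3 h4
      refine Finset.mem_image.2 ⟨m, Finset.mem_Icc.2 ⟨?_, ?_⟩, ?_⟩
      · rw [Int.ceil_le, ← hm]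
        exact mul_le_mul_of_nonneg_right h3 hlq.le
      · rw [Int.le_floor, ← hm]
        exact mul_le_mul_of_nonneg_right h4 hlq.le
      · rw [div_eq_iff hlq.ne', hm]
    have hprod : ∀ t : ℚ, (∏ r ∈ Z, ((t - r : ℚ) : k)) = 0 → t ∈ Z := by
      intro t ht
      obtain ⟨r, hr, h3⟩ := Finset.prod_eq_zero_iff.1 ht
      have h4 : t - r = 0 := by exact_mod_cast h3
      rw [sub_eq_zero.1 h4]
      exact hr
    have hprod' : ∀ t : ℚ, t ∈ Z → (∏ r ∈ Z, ((t - r : ℚ) : k)) = 0 := by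
      intro t ht
      refine Finset.prod_eq_zero ht ?_
      rw [sub_self, Rat.cast_zero]
    obtain ⟨f, hf, hc⟩ := exists_ops y hS.dcl hy Z
    by_cases h0 : (gm f : Gm 𝒰 (HS k)) = 0
    · rw [gm_eq_zero_iff] at h0
      filter_upwards [h0] with j hj r _ hr
      have h3 := hc j r
      rw [hj, cf_zero] at h3
      exact hZm r (hprod r ((mul_eq_zero.1 h3.symm).resolve_right hr))
    · obtain ⟨ρ, hρ⟩ := h1 k 𝒰 y s Q hS _ hf h0
      obtain ⟨m, hm⟩ := hdsc _ hf ρ hρ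
      rw [StO_gm] at hρ
      filter_upwards [hρ, hr0] with j hj hj0 r hrN hr
      have h3 : cf (y j) ρ ≠ 0 := by
        intro h4
        apply hj.1
        rw [hc, h4, mul_zero]
      have h4 : r0 ≤ ρ := by
        by_contra h5
        exact h3 (hj0.2 ρ (not_le.1 h5))
      have h5 : N < ρ := by
        by_contra h6
        apply hj.1
        rw [hc, hprod' ρ (hZi ρ m hm h4 (not_lt.1 h6)), zero_mul]
      have h6 : cf (f j) r = 0 := hj.2 r (lt_of_le_of_lt hrN h5)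
      rw [hc] at h6
      exact hZm r (hprod r ((mul_eq_zero.1 h6).resolve_right hr))
  refine ⟨l, -r0, hl, ?_, key, ?_⟩
  · filter_upwards [hr0] with j hj
    rw [neg_neg]
    exact hj.2
  · intro N
    filter_upwards [key N, hS.np l] with j hj hjl
    by_contra h3
    obtain ⟨m, hm⟩ := hj (s j) (not_lt.1 h3) (hS.ne j)
    obtain ⟨d, hd⟩ := Nat.dvd_factorial hl hjl
    refine hS.out j ⟨m * d, ?_⟩
    rw [hd]
    push_cast
    rw [← mul_assoc, hm]

end Pool.Agent.H51.OD
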